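import Pool.Agent.Q145.LQ.Stm

/-!
# Project LQ (helper145), job NOK: few pairs with equal values
-/

set_option autoImplicit false

namespace Pool.Agent.Q177.LQ

open Finset Filter Pool.Agent.Q145.SZ Pool.Agent.Q145.LQ

open Classical in
/-- job NOK -/
theorem t_NOK : S_NOK := by
  intro d Y K q hdeg hpos
  have hone : ∀ (i : Fin K), ∀ n ∈ Ioc Y (2 * Y), ((Ioc Y (2 * Y)).filter fun m => vq (q i) n = vq (q i) m).card ≤ d := by
    intro i n hn
    have hne : q i - Polynomial.C ((q i).eval (n : ℤ)) ≠ 0 := by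
      intro h0
      have h1 : q i = Polynomial.C ((q i).eval (n : ℤ)) := sub_eq_zero.1 h0
      have h2 := (hdeg i).1
      rw [h1, Polynomial.natDegree_C] at h2
      omega
    have hdg : (q i - Polynomial.C ((q i).eval (n : ℤ))).natDegree ≤ d := by
      rw [Polynomial.natDegree_sub_C]
      exact (hdeg i).2
    have hinj : ((Ioc Y (2 * Y)).filter fun m => vq (q i) n = vq (q i) m).card ≤
        (q i - Polynomial.C ((q i).eval (n : ℤ))).roots.toFinset.card := by
      refine Finset.card_le_card_of_injOn (fun m : ℕ => (m : ℤ)) ?_ ?_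
      · intro m hm
        have hm' := Finset.mem_filter.1 (Finset.mem_coe.1 hm)
        have h1 := hpos i m hm'.1
        have h2 := hpos i n hn
        have h3 : (q i).eval (n : ℤ) = (q i).eval (m : ℤ) := by
          have := hm'.2
          unfold vq at this
          omega
        rw [Finset.mem_coe, Multiset.mem_toFinset, Polynomial.mem_roots hne]
        simp [Polynomial.IsRoot, h3]
      · intro a _ b _ hab
        exact Int.natCast_inj.1 hab
    exact hinj.trans ((Multiset.toFinset_card_le _).trans ((Polynomial.card_roots' _).trans hdg))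
  have hsub : ((Ioc Y (2 * Y)) ×ˢ (Ioc Y (2 * Y))).filter (fun x : ℕ × ℕ => ¬ okp q x.1 x.2) ⊆
      (Ioc Y (2 * Y)).biUnion fun n => (insert n ((univ : Finset (Fin K)).biUnion fun i =>
        (Ioc Y (2 * Y)).filter fun m => vq (q i) n = vq (q i) m)).image fun m => (n, m) := by
    rintro ⟨n, m⟩ hx
    rw [Finset.mem_filter, Finset.mem_product] at hx
    obtain ⟨⟨hn, hm⟩, hx⟩ := hx
    rw [Finset.mem_biUnion]
    refine ⟨n, hn, Finset.mem_image.2 ⟨m, ?_, rfl⟩⟩
    rw [Finset.mem_insert]
    by_contra hcon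
    push Not at hcon
    apply hx
    refine ⟨fun h => hcon.1 h.symm, fun i hi => hcon.2 ?_⟩
    rw [Finset.mem_biUnion]
    exact ⟨i, Finset.mem_univ _, Finset.mem_filter.2 ⟨hm, hi⟩⟩
  have hcard : (((Ioc Y (2 * Y)) ×ˢ (Ioc Y (2 * Y))).filter (fun x : ℕ × ℕ => ¬ okp q x.1 x.2)).card ≤ Y * (1 + K * d) := by
    refine (Finset.card_le_card hsub).trans ?_
    refine (Finset.card_biUnion_le_card_mul _ _ (1 + K * d) ?_).trans ?_
    · intro n hn
      refine Finset.card_image_le.trans ((Finset.card_insert_le _ _).trans ?_)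
      have : ((univ : Finset (Fin K)).biUnion fun i => (Ioc Y (2 * Y)).filter fun m => vq (q i) n = vq (q i) m).card ≤ K * d := by
        refine (Finset.card_biUnion_le_card_mul _ _ d fun i _ => hone i n hn).trans ?_
        rw [Finset.card_univ, Fintype.card_fin]
      omega
    · rw [Nat.card_Ioc]
      have : 2 * Y - Y = Y := by omega
      rw [this]
  have h3 : ((((Ioc Y (2 * Y)) ×ˢ (Ioc Y (2 * Y))).filter (fun x : ℕ × ℕ => ¬ okp q x.1 x.2)).card : ℝ) ≤ ((Y * (1 + K * d) : ℕ) : ℝ) :=
    Nat.cast_le.2 hcard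
  refine h3.trans (le_of_eq ?_)
  push_cast
  ring

end Pool.Agent.Q177.LQ
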